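import Mathlib
import Pool.Agent.Lib_253687.Main

/-!
# Algebraic values of the `v`-adic interpolated Carlitz factorial (Yao's question)

`F` is a finite field with `q` elements and characteristic `p`, `A = F[X]`, `K = F(X)`.
For a monic irreducible `v ∈ A` of degree `d`, `K_v` is the `v`-adic completion of `K`,
`D_{j,v} ∈ A` is the product of all monic polynomials of degree `j` not divisible by `v`, and
for `n ∈ ℤ_p` with base-`q` digits `n_j` the value of the interpolated factorial is
`Π_v(n) = ∏_{j ≥ 0} (-D_{j,v})^{n_j} ∈ K_v`.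

We prove: if `Π_v(n)` is algebraic over `K` then the digits of `n` are ultimately periodic
of period `d`.
-/

namespace Pool.Agent.Results.MP_253687_nt.YaoConjecture

open Polynomial IsDedekindDomain Filter Topology

/-- The place of `F(X)` attached to an irreducible polynomial `v`, i.e. the prime ideal `(v)`. -/
noncomputable def place {F : Type*} [Field F] (v : F[X]) (hv : Irreducible v) : HeightOneSpectrum F[X] where
  asIdeal := Ideal.span {v}
  isPrime := (Ideal.span_singleton_prime hv.ne_zero).2 hv.prime
  ne_bot := by
    rw [Ne, Ideal.span_singleton_eq_bot]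
    exact hv.ne_zero

/-- `K_v`: the completion of `F(X)` at the place attached to `v`. -/
abbrev Kv {F : Type*} [Field F] (v : F[X]) (hv : Irreducible v) : Type _ :=
  (place v hv).adicCompletion (RatFunc F)

/-- `D_{j,v}`: the product of all monic polynomials of degree `j` not divisible by `v`. -/
noncomputable def D {F : Type*} [Field F] (v : F[X]) (j : ℕ) : F[X] :=
  ∏ᶠ a ∈ {a : F[X] | a.Monic ∧ a.natDegree = j ∧ ¬ v ∣ a}, a

/-- The partial product `∏_{j < J} (-D_{j,v})^(n_j)` in `K_v`. -/
noncomputable def partialProd {F : Type*} [Field F] (v : F[X]) (hv : Irreducible v)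
    (digits : ℕ → ℕ) (J : ℕ) : Kv v hv :=
  ∏ j ∈ Finset.range J, (algebraMap F[X] (Kv v hv) (-(D v j))) ^ (digits j)

/-- Let `n ∈ ℤ_p` have base-`q` digits `digits`.  Then the infinite product
`Π_v(n) = ∏_j (-D_{j,v})^(n_j)` converges in `K_v`, and if its value `P` is algebraic over
`K = F(X)`, then the digits of `n` are ultimately periodic of period `d = deg v`. -/
theorem result (p : ℕ) [Fact p.Prime] (F : Type*) [Field F] [Fintype F] [CharP F p]
    (v : F[X]) (hmonic : v.Monic) (hv : Irreducible v)
    (n : ℤ_[p]) (digits : ℕ → ℕ) (hdigits : ∀ j, digits j < Fintype.card F)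
    (hn : HasSum (fun j : ℕ => (digits j : ℤ_[p]) * (Fintype.card F : ℤ_[p]) ^ j) n) :
    ∃ P : Kv v hv, Tendsto (partialProd v hv digits) atTop (𝓝 P) ∧
      (IsAlgebraic (RatFunc F) P →
        ∃ J : ℕ, ∀ j ≥ J, digits (j + v.natDegree) = digits j) := by
  have _ := hn
  exact Pool.Agent.Lib253687.full_product (w := place v hv) rfl hmonic digits (Fintype.card F)
    (fun j => (hdigits j).le)

end Pool.Agent.Results.MP_253687_nt.YaoConjecture
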